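import Pool.Agent.W811.Nd.Abs

set_option autoImplicit false

namespace Pool.Agent.W391.Nd

open Set Pool.Agent.W811.Nd

theorem mem_kids {P : ℕ → Finset Nod} {n : ℕ} {B C : Nod} :
    C ∈ kids P n B ↔ C ∈ P (n + 1) ∧ seg C ⊆ seg B := by
  classical
  unfold kids
  rw [Finset.mem_filter]

variable {S : Set ℝ} {P : ℕ → Finset Nod}

theorem left_mem (h : Sys S P) {n : ℕ} {B : Nod} (hB : B ∈ P n) : B.1 ∈ seg B :=
  ⟨le_refl _, (h.lt n B hB).le⟩

theorem right_mem (h : Sys S P) {n : ℕ} {B : Nod} (hB : B ∈ P n) : B.2.1 ∈ seg B :=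
  ⟨(h.lt n B hB).le, le_refl _⟩

theorem len_pos (h : Sys S P) {n : ℕ} {B : Nod} (hB : B ∈ P n) : 0 < len B := by
  have := h.lt n B hB
  unfold len; linarith

theorem abs_le_len {B : Nod} {x y : ℝ} (hx : x ∈ seg B) (hy : y ∈ seg B) : |x - y| ≤ len B := by
  unfold seg at hx hy
  unfold len
  rw [abs_le]
  constructor <;> linarith [hx.1, hx.2, hy.1, hy.2]

theorem len_mono (h : Sys S P) {n : ℕ} {C B : Nod} (hC : C ∈ P n) (hs : seg C ⊆ seg B) :
    len C ≤ len B := by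
  have h1 := hs (left_mem h hC)
  have h2 := hs (right_mem h hC)
  have := abs_le_len h2 h1
  have h3 := len_pos h hC
  have h4 : |C.2.1 - C.1| = len C := abs_of_pos h3
  linarith

/-- same level nodes with a common point are equal -/
theorem eq_of_mem (h : Sys S P) {n : ℕ} {B B' : Nod} (hB : B ∈ P n) (hB' : B' ∈ P n) {x : ℝ}
    (hx : x ∈ seg B) (hx' : x ∈ seg B') : B = B' := by
  by_contra hne
  exact Set.disjoint_left.1 (h.disj n B hB B' hB' hne) hx hx'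

/-- ancestors -/
theorem ancestor (h : Sys S P) (n j : ℕ) (C : Nod) (hC : C ∈ P (n + j)) :
    ∃ B ∈ P n, seg C ⊆ seg B := by
  induction j generalizing C with
  | zero => exact ⟨C, hC, subset_rfl⟩
  | succ j ih =>
    obtain ⟨B, hB, hs⟩ := h.par (n + j) C hC
    obtain ⟨B', hB', hs'⟩ := ih B hB
    exact ⟨B', hB', hs.trans hs'⟩

/-- a node of level `n+1` with a point in common with a node of level `n` is a child -/
theorem kid_of_mem (h : Sys S P) {n : ℕ} {B C : Nod} (hB : B ∈ P n) (hC : C ∈ P (n + 1)) {x : ℝ}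
    (hx : x ∈ seg C) (hxB : x ∈ seg B) : C ∈ kids P n B := by
  rw [mem_kids]
  refine ⟨hC, ?_⟩
  obtain ⟨B', hB', hs⟩ := h.par n C hC
  rwa [eq_of_mem h hB hB' hxB (hs hx)]

/-- every point of `S` in `B` is in a child of `B` -/
theorem exists_kid (h : Sys S P) {n : ℕ} {B : Nod} (hB : B ∈ P n) {x : ℝ} (hx : x ∈ S)
    (hxB : x ∈ seg B) : ∃ C ∈ kids P n B, x ∈ seg C := by
  obtain ⟨C, hC, hxC⟩ := h.cover (n + 1) x hx
  exact ⟨C, kid_of_mem h hB hC hxC hxB, hxC⟩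

theorem two_kids (h : Sys S P) {n : ℕ} {B : Nod} (hB : B ∈ P n) :
    ∃ C ∈ kids P n B, ∃ C' ∈ kids P n B, C ≠ C' := by
  have h1 : 1 < (kids P n B).card := by
    rw [h.card n B hB]
    split_ifs <;> norm_num
  exact Finset.one_lt_card.1 h1

/-- two points of `S` in different children -/
theorem two_points (h : Sys S P) {n : ℕ} {B : Nod} (hB : B ∈ P n) :
    ∃ x ∈ S, ∃ y ∈ S, x ∈ seg B ∧ y ∈ seg B ∧ len B / 25 ≤ |x - y| := by
  obtain ⟨C, hC, C', hC', hne⟩ := two_kids h hB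
  obtain ⟨x, hx, hxC⟩ := h.meet (n + 1) C (mem_kids.1 hC).1
  obtain ⟨y, hy, hyC⟩ := h.meet (n + 1) C' (mem_kids.1 hC').1
  exact ⟨x, hx, y, hy, (mem_kids.1 hC).2 hxC, (mem_kids.1 hC').2 hyC,
    h.gap n B hB C hC C' hC' hne x hxC y hyC⟩

theorem pos_min {α : Type*} (s : Finset α) (f : α → ℝ) (hf : ∀ a ∈ s, 0 < f a) :
    ∃ r : ℝ, 0 < r ∧ ∀ a ∈ s, r ≤ f a := by
  rcases s.eq_empty_or_nonempty with rfl | hs
  · exact ⟨1, one_pos, by simp⟩
  · obtain ⟨a, ha, hm⟩ := s.exists_min_image f hs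
    exact ⟨f a, hf a ha, hm⟩

theorem len_bound (h : Sys S P) : ∃ L : ℝ, 0 < L ∧ ∀ n, ∀ B ∈ P n, len B ≤ (3 / 5000) ^ n * L := by
  obtain ⟨L, hL⟩ : ∃ L : ℝ, 0 < L ∧ ∀ B ∈ P 0, len B ≤ L := by
    rcases (P 0).eq_empty_or_nonempty with he | hs
    · exact ⟨1, one_pos, by simp [he]⟩
    · obtain ⟨a, ha, hm⟩ := (P 0).exists_max_image len hs
      exact ⟨len a, len_pos h ha, hm⟩
  refine ⟨L, hL.1, ?_⟩
  intro n
  induction n with
  | zero => intro B hB; simpa using hL.2 B hB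
  | succ n ih =>
    intro C hC
    obtain ⟨B, hB, hs⟩ := h.par n C hC
    have h1 := h.small n B hB C (mem_kids.2 ⟨hC, hs⟩)
    have h2 := ih B hB
    rw [pow_succ]
    nlinarith

/-- separation of the nodes of level `0` -/
theorem sep (h : Sys S P) : ∃ r : ℝ, 0 < r ∧ ∀ B ∈ P 0, ∀ B' ∈ P 0, B ≠ B' →
    ∀ x ∈ seg B, ∀ y ∈ seg B', r ≤ |x - y| := by
  classical
  have key : ∀ p ∈ ((P 0) ×ˢ (P 0)), ∃ r : ℝ, 0 < r ∧ (p.1 ≠ p.2 →
      ∀ x ∈ seg p.1, ∀ y ∈ seg p.2, r ≤ |x - y|) := by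
    rintro ⟨B, B'⟩ hp
    rw [Finset.mem_product] at hp
    by_cases hne : B = B'
    · exact ⟨1, one_pos, fun h => absurd hne h⟩
    · have hd := h.disj 0 B hp.1 B' hp.2 hne
      have hB := h.lt 0 B hp.1
      have hB' := h.lt 0 B' hp.2
      rcases lt_or_ge B.2.1 B'.1 with hlt | hge
      · refine ⟨B'.1 - B.2.1, by linarith, fun _ x hx y hy => ?_⟩
        rw [abs_sub_comm]
        refine le_trans ?_ (le_abs_self _)
        have := hx.2
        have := hy.1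
        simp only at *
        linarith
      · rcases lt_or_ge B'.2.1 B.1 with hlt | hge'
        · refine ⟨B.1 - B'.2.1, by linarith, fun _ x hx y hy => ?_⟩
          refine le_trans ?_ (le_abs_self _)
          have := hx.1
          have := hy.2
          simp only at *
          linarith
        · exfalso
          rcases le_total B.1 B'.1 with h1 | h1
          · exact Set.disjoint_left.1 hd (show B'.1 ∈ seg B from ⟨h1, hge⟩) ⟨le_refl _, hB'.le⟩
          · exact Set.disjoint_left.1 hd (show B.1 ∈ seg B from ⟨le_refl _, hB.le⟩) ⟨h1, hge'⟩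
  choose! f hf0 hf using key
  obtain ⟨r, hr, hm⟩ := pos_min _ f hf0
  refine ⟨r, hr, ?_⟩
  intro B hB B' hB' hne x hx y hy
  have hp : (B, B') ∈ (P 0) ×ˢ (P 0) := Finset.mem_product.2 ⟨hB, hB'⟩
  exact (hm _ hp).trans (hf _ hp hne x hx y hy)

/-- location of a small set -/
theorem locate (h : Sys S P) {r : ℝ} (hr : ∀ B ∈ P 0, ∀ B' ∈ P 0, B ≠ B' →
    ∀ x ∈ seg B, ∀ y ∈ seg B', r ≤ |x - y|) (A : Set ℝ) (hA : A ⊆ S) {a b δ : ℝ} (ha : a ∈ A)
    (hb : b ∈ A) (hab : 0 < |a - b|) (hδ : ∀ x ∈ A, ∀ y ∈ A, |x - y| ≤ δ) (hδr : δ < r) :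
    ∃ k, ∃ D ∈ P k, A ⊆ seg D ∧ len D / 25 ≤ δ ∧ ∀ C ∈ P (k + 1), ¬ A ⊆ seg C := by
  classical
  obtain ⟨L, hL, hlen⟩ := len_bound h
  have h0 : ∃ D ∈ P 0, A ⊆ seg D := by
    obtain ⟨D, hD, haD⟩ := h.cover 0 a (hA ha)
    refine ⟨D, hD, ?_⟩
    intro x hx
    obtain ⟨D', hD', hxD'⟩ := h.cover 0 x (hA hx)
    by_cases he : D' = D
    · rwa [← he]
    · have h1 := hr D' hD' D hD he x hxD' a haD
      have h2 := hδ x hx a ha
      linarith
  have hex : ∃ k, ¬ ∃ D ∈ P k, A ⊆ seg D := by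
    by_contra hcon
    push Not at hcon
    obtain ⟨n, hn⟩ := exists_pow_lt_of_lt_one (show 0 < |a - b| / L by positivity)
      (show (3/5000 : ℝ) < 1 by norm_num)
    obtain ⟨D, hD, hAD⟩ := hcon n
    have h1 := hlen n D hD
    have h2 := abs_le_len (hAD ha) (hAD hb)
    rw [lt_div_iff₀ hL] at hn
    linarith
  have hk0 : Nat.find hex ≠ 0 := by
    intro h1
    have := Nat.find_spec hex
    rw [h1] at this
    exact this h0
  obtain ⟨k, hk⟩ := Nat.exists_eq_succ_of_ne_zero hk0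
  have hk1 : ∃ D ∈ P k, A ⊆ seg D := by
    have := Nat.find_min hex (m := k) (by omega)
    exact not_not.1 this
  have hk2 : ∀ C ∈ P (k + 1), ¬ A ⊆ seg C := by
    have := Nat.find_spec hex
    rw [hk] at this
    push Not at this
    exact this
  obtain ⟨D, hD, hAD⟩ := hk1
  refine ⟨k, D, hD, hAD, ?_, hk2⟩
  obtain ⟨C, hC, haC⟩ := exists_kid h hD (hA ha) (hAD ha)
  have h3 := hk2 C (mem_kids.1 hC).1
  rw [Set.not_subset] at h3
  obtain ⟨x, hx, hxC⟩ := h3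
  obtain ⟨C', hC', hxC'⟩ := exists_kid h hD (hA hx) (hAD hx)
  have hne : C ≠ C' := by rintro rfl; exact hxC hxC'
  exact (h.gap k D hD C hC C' hC' hne a haC x hxC').trans (hδ a ha x hx)

theorem match_ : TMatch := by
  classical
  rintro S S' P P' f g h h' hgf hfS ⟨r, M, ρ, hAff⟩
  obtain ⟨s, hs, hsep⟩ := sep h
  obtain ⟨s', hs', hsep'⟩ := sep h'
  obtain ⟨L, hL, hlen⟩ := len_bound h
  have hr := hAff.r0
  have hM := hAff.M0
  -- the small length
  obtain ⟨ℓ, hℓ0, hℓ1, hℓ2, hℓ3, hℓ4⟩ : ∃ ℓ : ℝ, 0 < ℓ ∧ ℓ ≤ r ∧ 30 * (M * ℓ) ≤ r ∧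
      2 * (M * ℓ) < s' ∧ 30 * ℓ < s := by
    refine ⟨min (min r (r / (30 * M))) (min (s' / (4 * M)) (s / 60)), ?_, ?_, ?_, ?_, ?_⟩
    · have h1 : 0 < r / (30 * M) := by positivity
      have h2 : 0 < s' / (4 * M) := by positivity
      have h3 : 0 < s / 60 := by positivity
      exact lt_min (lt_min hr h1) (lt_min h2 h3)
    · exact (min_le_left _ _).trans (min_le_left _ _)
    · have h1 : min (min r (r / (30 * M))) (min (s' / (4 * M)) (s / 60)) ≤ r / (30 * M) :=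
        (min_le_left _ _).trans (min_le_right _ _)
      rw [le_div_iff₀ (by positivity)] at h1
      linarith
    · have h1 : min (min r (r / (30 * M))) (min (s' / (4 * M)) (s / 60)) ≤ s' / (4 * M) :=
        (min_le_right _ _).trans (min_le_left _ _)
      rw [le_div_iff₀ (by positivity)] at h1
      linarith
    · have h1 : min (min r (r / (30 * M))) (min (s' / (4 * M)) (s / 60)) ≤ s / 60 :=
        (min_le_right _ _).trans (min_le_right _ _)
      linarith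
  obtain ⟨N, hN⟩ := exists_pow_lt_of_lt_one (show 0 < ℓ / L by positivity)
      (show (3/5000 : ℝ) < 1 by norm_num)
  rw [lt_div_iff₀ hL] at hN
  refine ⟨N, ?_⟩
  intro B hB
  have hBlen : len B ≤ ℓ := (hlen N B hB).trans hN.le
  have hBpos := len_pos h hB
  obtain ⟨x₀, hx₀, hx₀B⟩ := h.meet N B hB
  obtain ⟨hρ0, hρM, -⟩ := hAff.hρ x₀ hx₀
  obtain ⟨ρ₀, hρ₀⟩ : ∃ ρ₀, ρ₀ = ρ x₀ := ⟨_, rfl⟩
  rw [← hρ₀] at hρ0 hρM
  have hMℓ : ρ₀ * len B ≤ M * ℓ := mul_le_mul hρM hBlen hBpos.le hM.le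
  have hf : ∀ x ∈ seg B, ∀ y ∈ seg B, 99 / 100 * ρ₀ * |x - y| ≤ |f x - f y| ∧
      |f x - f y| ≤ 101 / 100 * ρ₀ * |x - y| := by
    intro x hx y hy
    have := hAff.hf x₀ hx₀ x y ((abs_le_len hx hx₀B).trans (by linarith))
      ((abs_le_len hy hx₀B).trans (by linarith))
    rw [← hρ₀] at this
    constructor
    · have := this.1; norm_num at this ⊢; exact this
    · have := this.2; norm_num at this ⊢; exact this
  -- the image
  obtain ⟨A, hA⟩ : ∃ A : Set ℝ, A = f '' (S ∩ seg B) := ⟨_, rfl⟩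
  have hAS : A ⊆ S' := by
    rw [hA, ← hfS]
    exact Set.image_mono Set.inter_subset_left
  obtain ⟨x₁, hx₁, x₂, hx₂, hx₁B, hx₂B, hx₁₂⟩ := two_points h hB
  have hd : 99 / 100 * ρ₀ * (len B / 25) ≤ |f x₁ - f x₂| := by
    refine le_trans ?_ (hf x₁ hx₁B x₂ hx₂B).1
    have : 0 < 99 / 100 * ρ₀ := by positivity
    exact mul_le_mul_of_nonneg_left hx₁₂ this.le
  have hd0 : 0 < 99 / 100 * ρ₀ * (len B / 25) := by positivity
  have hAδ : ∀ x ∈ A, ∀ y ∈ A, |x - y| ≤ 101 / 100 * (ρ₀ * len B) := by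
    rw [hA]
    rintro _ ⟨x, hx, rfl⟩ _ ⟨y, hy, rfl⟩
    refine (hf x hx.2 y hy.2).2.trans ?_
    rw [mul_assoc]
    have h1 := abs_le_len hx.2 hy.2
    have h2 : ρ₀ * |x - y| ≤ ρ₀ * len B := mul_le_mul_of_nonneg_left h1 hρ0.le
    linarith
  obtain ⟨k, D, hD, hAD, hDlen, hDmax⟩ := locate h' hsep' A hAS
    (show f x₁ ∈ A by rw [hA]; exact ⟨x₁, ⟨hx₁, hx₁B⟩, rfl⟩)
    (show f x₂ ∈ A by rw [hA]; exact ⟨x₂, ⟨hx₂, hx₂B⟩, rfl⟩) (by linarith) hAδ (by linarith)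
  have hDpos := len_pos h' hD
  have hDlow : 99 / 100 * ρ₀ * (len B / 25) ≤ len D := by
    refine hd.trans (abs_le_len (hAD ?_) (hAD ?_))
    · rw [hA]; exact ⟨x₁, ⟨hx₁, hx₁B⟩, rfl⟩
    · rw [hA]; exact ⟨x₂, ⟨hx₂, hx₂B⟩, rfl⟩
  have hDr : len D ≤ r := by linarith
  have hfA : ∀ x ∈ S, x ∈ seg B → f x ∈ A := by
    intro x hx hxB; rw [hA]; exact ⟨x, ⟨hx, hxB⟩, rfl⟩
  have hfD : ∀ x ∈ S, x ∈ seg B → f x ∈ seg D := fun x hx hxB => hAD (hfA x hx hxB)
  have hf' : ∀ x ∈ S, x ∈ seg B → f x ∈ S' := fun x hx hxB => hAS (hfA x hx hxB)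
  -- (2) points of the same child go to the same child
  have same : ∀ E ∈ kids P N B, ∀ x ∈ S, x ∈ seg E → ∀ y ∈ S, y ∈ seg E → ∀ C ∈ kids P' k D,
      ∀ C' ∈ kids P' k D, f x ∈ seg C → f y ∈ seg C' → C = C' := by
    intro E hE x hx hxE y hy hyE C hC C' hC' hfx hfy
    by_contra hne
    have h1 := h'.gap k D hD C hC C' hC' hne _ hfx _ hfy
    have hEB := (mem_kids.1 hE).2
    have h2 := (hf x (hEB hxE) y (hEB hyE)).2
    have h3 := abs_le_len hxE hyE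
    have h4 := h.small N B hB E hE
    have h5 : ρ₀ * |x - y| ≤ ρ₀ * (3 / 5000 * len B) :=
      mul_le_mul_of_nonneg_left (h3.trans h4) hρ0.le
    have h6 : 0 < ρ₀ * len B := by positivity
    nlinarith
  -- (3) points of different children go to different children
  have diff : ∀ E ∈ kids P N B, ∀ E' ∈ kids P N B, ∀ x ∈ S, x ∈ seg E → ∀ y ∈ S, y ∈ seg E' →
      ∀ C ∈ kids P' k D, f x ∈ seg C → f y ∈ seg C → E = E' := by
    intro E hE E' hE' x hx hxE y hy hyE C hC hfx hfy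
    by_contra hne
    have h1 := h.gap N B hB E hE E' hE' hne _ hxE _ hyE
    have hEB := (mem_kids.1 hE).2
    have hEB' := (mem_kids.1 hE').2
    have h2 := (hf x (hEB hxE) y (hEB' hyE)).1
    have h3 := abs_le_len hfx hfy
    have h4 := h'.small k D hD C hC
    have h5 : ρ₀ * (len B / 25) ≤ ρ₀ * |x - y| :=
      mul_le_mul_of_nonneg_left h1 hρ0.le
    have h6 : 0 < ρ₀ * len B := by positivity
    nlinarith
  -- (4) the preimage of `D`
  have hgS : ∀ y ∈ S', g y ∈ S ∧ f (g y) = y := by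
    intro y hy
    rw [← hfS] at hy
    obtain ⟨x, hx, rfl⟩ := hy
    rw [hgf x hx]
    exact ⟨hx, rfl⟩
  have hSD : S' ∩ seg D = A := by
    refine Set.Subset.antisymm ?_ (fun y hy => ⟨hAS hy, hAD hy⟩)
    obtain ⟨A', hA'⟩ : ∃ A' : Set ℝ, A' = g '' (S' ∩ seg D) := ⟨_, rfl⟩
    have hA'S : A' ⊆ S := by
      rw [hA']
      rintro _ ⟨y, hy, rfl⟩
      exact (hgS y hy.1).1
    have hBA' : ∀ x ∈ S, x ∈ seg B → x ∈ A' := by
      intro x hx hxB
      rw [hA']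
      exact ⟨f x, ⟨hf' x hx hxB, hfD x hx hxB⟩, hgf x hx⟩
    have hA'δ : ∀ x ∈ A', ∀ y ∈ A', |x - y| ≤ (101 / 100) ^ 2 * 25 * len B := by
      rw [hA']
      rintro _ ⟨x, hx, rfl⟩ _ ⟨y, hy, rfl⟩
      have hx0D := hfD x₀ hx₀ hx₀B
      have h1 := (hAff.hg x₀ hx₀ x y ((abs_le_len hx.2 hx0D).trans hDr)
        ((abs_le_len hy.2 hx0D).trans hDr)).2
      rw [← hρ₀] at h1
      have h2 := abs_le_len hx.2 hy.2
      have h3 : ρ₀ * |g x - g y| ≤ ρ₀ * ((101 / 100) ^ 2 * 25 * len B) := by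
        calc ρ₀ * |g x - g y| ≤ (1 + 1 / 100) * |x - y| := h1
          _ ≤ (1 + 1 / 100) * len D := by linarith
          _ ≤ ρ₀ * ((101 / 100) ^ 2 * 25 * len B) := by nlinarith
      exact le_of_mul_le_mul_left h3 hρ0
    obtain ⟨k', B', hB', hA'B', hB'len, hB'max⟩ := locate h hsep A' hA'S
      (hBA' x₁ hx₁ hx₁B) (hBA' x₂ hx₂ hx₂B) (by linarith) hA'δ (by linarith)
    have hx₀B' : x₀ ∈ seg B' := hA'B' (hBA' x₀ hx₀ hx₀B)
    have hkN : k' = N := by
      rcases lt_trichotomy k' N with hlt | heq | hgt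
      · exfalso
        obtain ⟨j, hj⟩ : ∃ j, N = (k' + 1) + j := ⟨N - (k' + 1), by omega⟩
        have hB2 := hB
        rw [hj] at hB2
        obtain ⟨C, hC, hCs⟩ := ancestor h (k' + 1) j B hB2
        have hCk := kid_of_mem h hB' hC (hCs hx₀B) hx₀B'
        have h1 := h.small k' B' hB' C hCk
        have h2 := len_mono h hB hCs
        linarith
      · exact heq
      · exfalso
        obtain ⟨j, hj⟩ : ∃ j, k' = (N + 1) + j := ⟨k' - (N + 1), by omega⟩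
        have hB2 := hB'
        rw [hj] at hB2
        obtain ⟨C, hC, hCs⟩ := ancestor h (N + 1) j B' hB2
        obtain ⟨E, hE, E', hE', hne⟩ := two_kids h hB
        obtain ⟨x, hx, hxE⟩ := h.meet (N + 1) E (mem_kids.1 hE).1
        obtain ⟨y, hy, hyE⟩ := h.meet (N + 1) E' (mem_kids.1 hE').1
        have e1 := eq_of_mem h (mem_kids.1 hE).1 hC hxE
          (hCs (hA'B' (hBA' x hx ((mem_kids.1 hE).2 hxE))))
        have e2 := eq_of_mem h (mem_kids.1 hE').1 hC hyE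
          (hCs (hA'B' (hBA' y hy ((mem_kids.1 hE').2 hyE))))
        exact hne (e1.trans e2.symm)
    subst hkN
    have hBB' : B = B' := eq_of_mem h hB hB' hx₀B hx₀B'
    rintro y ⟨hy, hyD⟩
    have h1 : g y ∈ A' := by rw [hA']; exact ⟨y, ⟨hy, hyD⟩, rfl⟩
    have h2 : g y ∈ seg B := by rw [hBB']; exact hA'B' h1
    rw [← (hgS y hy).2]
    exact hfA _ (hgS y hy).1 h2
  -- (5) the cardinalities
  have hcard : (kids P N B).card = (kids P' k D).card := by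
    apply le_antisymm
    · have hex : ∀ E ∈ kids P N B, ∃ C ∈ kids P' k D, ∃ x ∈ S, x ∈ seg E ∧ f x ∈ seg C := by
        intro E hE
        obtain ⟨x, hx, hxE⟩ := h.meet (N + 1) E (mem_kids.1 hE).1
        have hxB := (mem_kids.1 hE).2 hxE
        obtain ⟨C, hC, hfC⟩ := exists_kid h' hD (hf' x hx hxB) (hfD x hx hxB)
        exact ⟨C, hC, x, hx, hxE, hfC⟩
      choose! F hF1 F2 hF2 hF3 hF4 using hex
      refine Finset.card_le_card_of_injOn F (fun E hE => hF1 E hE) ?_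
      intro E hE E' hE' he
      have he' : F E = F E' := he
      refine diff E hE E' hE' (F2 E) (hF2 E hE) (hF3 E hE) (F2 E') (hF2 E' hE') (hF3 E' hE')
        (F E) (hF1 E hE) (hF4 E hE) ?_
      rw [he']
      exact hF4 E' hE'
    · have hex : ∀ C ∈ kids P' k D, ∃ E ∈ kids P N B, ∃ x ∈ S, x ∈ seg E ∧ f x ∈ seg C := by
        intro C hC
        obtain ⟨y, hy, hyC⟩ := h'.meet (k + 1) C (mem_kids.1 hC).1
        have hyD := (mem_kids.1 hC).2 hyC
        have hyA : y ∈ A := by rw [← hSD]; exact ⟨hy, hyD⟩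
        rw [hA] at hyA
        obtain ⟨x, ⟨hx, hxB⟩, rfl⟩ := hyA
        obtain ⟨E, hE, hxE⟩ := exists_kid h hB hx hxB
        exact ⟨E, hE, x, hx, hxE, hyC⟩
      choose! F hF1 F2 hF2 hF3 hF4 using hex
      refine Finset.card_le_card_of_injOn F (fun E hE => hF1 E hE) ?_
      intro C hC C' hC' he
      have he' : F C = F C' := he
      refine same (F C) (hF1 C hC) (F2 C) (hF2 C hC) (hF3 C hC) (F2 C') (hF2 C' hC') ?_ C hC C' hC'
        (hF4 C hC) (hF4 C' hC')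
      rw [he']
      exact hF3 C' hC'
  refine ⟨k, D, hD, ?_, ?_⟩
  · rw [hSD, hA]
  · rw [h.card N B hB, h'.card k D hD] at hcard
    revert hcard
    cases B.2.2 <;> cases D.2.2 <;> simp

end Pool.Agent.W391.Nd
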